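import Mathlib
import Pool.Agent.H59.NewtonDefs
import Pool.Agent.H59.NewtonCover

/-!
For every dimension `d = k + 1 ≥ 2` and every sufficiently large height `h`, two congruent copies
of the right pyramid `P^d(h)` over the unit cube `C^{d-1}` cover a neighbourhood of it, so that
its Newton covering number is `2`, while the Newton covering number of the cube `C^{d-1}` is at
least `2`.  Hence the identity `N*(P^d(h)) = N*(C^{d-1}) + 1` fails in every dimension.
-/

set_option autoImplicit false

open Pool.Agent.H59.Newton

namespace Pool.Agent.Results.MP_5875c4_co.TallPyramids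

/-- For every `k ≥ 1` (so `d = k + 1 ≥ 2`) and all large `h`, the Newton covering number of the
pyramid of height `h` over the `k`-dimensional unit cube is `2`, and it differs from the Newton
covering number of the cube plus one. -/
theorem result : ∀ k : ℕ, 1 ≤ k → ∃ h₀ : ℝ, 0 < h₀ ∧ ∀ h : ℝ, h₀ ≤ h →
    newtonNumber (pyramid k h) = 2 ∧ 2 ≤ newtonNumber (cube k) ∧
      newtonNumber (pyramid k h) ≠ newtonNumber (cube k) + 1 := by
  intro k hk
  obtain ⟨m, rfl⟩ : ∃ m, k = m + 1 := ⟨k - 1, by omega⟩
  obtain ⟨h₀, hpos, H⟩ := covers_two_tall (m + 1)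
  refine ⟨h₀, hpos, fun h hh => ?_⟩
  have h2 := newtonNumber_pyramid_eq_two (H h hh)
  have h3 := two_le_newtonNumber (isCompact_cube (m + 1)) (interior_cube_nonempty (m + 1))
  refine ⟨h2, h3, ?_⟩
  omega

end Pool.Agent.Results.MP_5875c4_co.TallPyramids
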